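import Pool.Agent.H24.UG.T7
import Pool.Agent.H67.AG.T3

/-!
Row UA0 of the board ulg_modules (`MP_c59857_nt`): the relation for the conditional expectations
(adapted from `Pool.Agent.H55.AG.A0`).
-/

set_option autoImplicit false

open MeasureTheory ProbabilityTheory Filter Topology Finset
open scoped Nat ENNReal

namespace Pool.Agent.H39.UG

open Pool.Agent.H24.UG
open Pool.Agent.H67.AG (avgP ul Inv Rt Av SA kap JJ TT InvZ nxt triv tow XN PN TN XX PX TX prX Fac
  Tup dl Dlt Mis bd κ₀ Sw SwE)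
open Pool.Agent.H24.T2 (Pset)

/-! ### averages over primes -/

theorem avgP_congr {W m : ℕ} {F G : ℕ → ℝ} (h : ∀ p ∈ Pset W m, F p = G p) :
    avgP W m F = avgP W m G := by
  unfold avgP
  rw [Finset.sum_congr rfl h]

theorem avgP_sub (W m : ℕ) (F G : ℕ → ℝ) :
    avgP W m F - avgP W m G = avgP W m fun p => F p - G p := by
  unfold avgP
  rw [Finset.sum_sub_distrib, sub_div]

theorem avgP_mul (W m : ℕ) (a : ℝ) (F : ℕ → ℝ) :
    avgP W m (fun p => a * F p) = a * avgP W m F := by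
  unfold avgP
  rw [← Finset.mul_sum, mul_div_assoc]

theorem avgP_const {W m : ℕ} (a : ℝ) (h : 0 < (Pset W m).card) :
    avgP W m (fun _ => a) = a := by
  unfold avgP
  have h' : ((Pset W m).card : ℝ) ≠ 0 := by
    have : (0 : ℝ) < (Pset W m).card := by exact_mod_cast h
    exact this.ne'
  rw [Finset.sum_const, nsmul_eq_mul, mul_div_cancel_left₀ _ h']

theorem abs_avgP_le {W m : ℕ} {F : ℕ → ℝ} {C : ℝ} (hC : 0 ≤ C) (h : ∀ p, |F p| ≤ C) :
    |avgP W m F| ≤ C := by
  unfold avgP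
  rw [abs_div, Nat.abs_cast]
  rcases Nat.eq_zero_or_pos (Pset W m).card with h0 | h0
  · rw [h0]
    simpa using hC
  · have h' : (0 : ℝ) < (Pset W m).card := by exact_mod_cast h0
    rw [div_le_iff₀ h']
    calc |∑ p ∈ Pset W m, F p| ≤ ∑ p ∈ Pset W m, |F p| := Finset.abs_sum_le_sum_abs _ _
      _ ≤ ∑ _p ∈ Pset W m, C := Finset.sum_le_sum fun p _ => h p
      _ = C * (Pset W m).card := by rw [Finset.sum_const, nsmul_eq_mul, mul_comm]

theorem dvd_of_mem {W m p : ℕ} (hp : p ∈ Pset W m) : W ∣ p - 1 := by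
  unfold Pset at hp
  rw [Finset.mem_filter] at hp
  have h1 : 1 ≤ p := hp.2.1.one_lt.le
  exact (Nat.modEq_iff_dvd' h1).mp hp.2.2.symm

/-! ### limits along ultrafilters -/

theorem ul_eq_of_sub {U : Ultrafilter ℕ} (hul : Pool.Agent.H67.AG.T_UL) (hU : (U : Filter ℕ) ≤ atTop)
    {f g : ℕ → ℝ} (hf : ∃ C, ∀ n, |f n| ≤ C) (hg : ∃ C, ∀ n, |g n| ≤ C)
    (h : Tendsto (fun n => f n - g n) atTop (𝓝 0)) : ul U f = ul U g := by
  have h1 := (hul U).1 f hf
  have h2 := (hul U).1 g hg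
  have h3 := h1.sub h2
  have h4 := h.mono_left hU
  have h5 := tendsto_nhds_unique h3 h4
  linarith

/-! ### the tuple and its conditional expectations -/

theorem Dt_meas (c : CxE) (i : Fin c.k) : Measurable (c.Dt i) :=
  c.Dm.comp (c.T.measurable.iterate (c.β i))

theorem Dt_sign (c : CxE) (i : Fin c.k) (x : c.X) : c.Dt i x = 1 ∨ c.Dt i x = -1 :=
  c.Dv _

theorem Dt_abs (c : CxE) (i : Fin c.k) (x : c.X) : |c.Dt i x| ≤ 1 := by
  rcases Dt_sign c i x with h | h <;> rw [h] <;> simp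

theorem Db_measZ (c : CxE) (i : Fin c.k) :
    Measurable[(tow c.μ c.T (c.k - 1)).1] (c.Db i) := by
  have h : Measurable[(tow c.μ c.T (c.k - 1)).1] (c.μ[c.Dt i | (tow c.μ c.T (c.k - 1)).1]) :=
    stronglyMeasurable_condExp.measurable
  exact Measurable.max measurable_const (Measurable.min measurable_const h)

theorem Db_meas (c : CxE) (i : Fin c.k) : Measurable (c.Db i) :=
  (Db_measZ c i).mono (tow c.μ c.T (c.k - 1)).2 le_rfl

theorem Db_abs (c : CxE) (i : Fin c.k) (x : c.X) : |c.Db i x| ≤ 1 := by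
  unfold CxE.Db
  rw [abs_le]
  constructor
  · exact le_max_left _ _
  · exact max_le (by norm_num) (min_le_left _ _)

theorem Db_ae (c : CxE) (i : Fin c.k) :
    c.Db i =ᵐ[c.μ] c.μ[c.Dt i | (tow c.μ c.T (c.k - 1)).1] := by
  have h : ∀ᵐ x ∂c.μ, |(c.μ[c.Dt i | (tow c.μ c.T (c.k - 1)).1]) x| ≤ (1 : ℝ) :=
    ae_bdd_abs_condExp_of_ae_bdd_abs (R := (1 : ℝ)) (Filter.Eventually.of_forall fun x =>
      Dt_abs c i x)
  filter_upwards [h] with x hx
  rw [abs_le] at hx
  unfold CxE.Db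
  rw [min_eq_right hx.2, max_eq_right hx.1]

/-- half of the difference -/
noncomputable def fz (c : CxE) (i : Fin c.k) (x : c.X) : ℝ := (1 / 2) * (c.Dt i x - c.Db i x)

theorem fz_meas (c : CxE) (i : Fin c.k) : Measurable (fz c i) :=
  measurable_const.mul ((Dt_meas c i).sub (Db_meas c i))

theorem fz_abs (c : CxE) (i : Fin c.k) (x : c.X) : |fz c i x| ≤ 1 := by
  unfold fz
  have h1 := Dt_abs c i x
  have h2 := Db_abs c i x
  rw [abs_le] at h1 h2 ⊢
  constructor <;> linarith [h1.1, h1.2, h2.1, h2.2]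

theorem integrable_of_bdd {X : Type} [MeasurableSpace X] {μ : Measure X} [IsFiniteMeasure μ]
    {f : X → ℝ} (hf : Measurable f) {C : ℝ} (h : ∀ x, |f x| ≤ C) : Integrable f μ :=
  Integrable.of_bound hf.aestronglyMeasurable C (Filter.Eventually.of_forall fun x => by
    rw [Real.norm_eq_abs]; exact h x)

theorem fz_condExp (c : CxE) (i : Fin c.k) :
    c.μ[fz c i | (tow c.μ c.T (c.k - 1)).1] =ᵐ[c.μ] 0 := by
  have hD : Integrable (c.Dt i) c.μ := integrable_of_bdd (Dt_meas c i) (Dt_abs c i)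
  have hB : Integrable (c.Db i) c.μ := integrable_of_bdd (Db_meas c i) (Db_abs c i)
  have he : fz c i = (1 / 2 : ℝ) • (c.Dt i - c.Db i) := by
    funext x
    simp [fz]
  have h1 : c.μ[fz c i | (tow c.μ c.T (c.k - 1)).1] =ᵐ[c.μ]
      (1 / 2 : ℝ) • c.μ[c.Dt i - c.Db i | (tow c.μ c.T (c.k - 1)).1] := by
    rw [he]
    exact condExp_smul _ _ _
  have h2 : c.μ[c.Dt i - c.Db i | (tow c.μ c.T (c.k - 1)).1] =ᵐ[c.μ]
      c.μ[c.Dt i | (tow c.μ c.T (c.k - 1)).1] - c.μ[c.Db i | (tow c.μ c.T (c.k - 1)).1] :=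
    condExp_sub hD hB _
  have h3 : c.μ[c.Db i | (tow c.μ c.T (c.k - 1)).1] = c.Db i :=
    condExp_of_stronglyMeasurable (tow c.μ c.T (c.k - 1)).2 (Db_measZ c i).stronglyMeasurable hB
  filter_upwards [h1, h2, Db_ae c i] with x hx1 hx2 hx3
  rw [hx1, Pi.smul_apply, hx2, Pi.sub_apply, h3, hx3]
  simp

/-! ### invariant sets -/

theorem mem_iter {X : Type} {S : X → X} {A : Set X} (h : S ⁻¹' A = A) (n : ℕ) (x : X) :
    S^[n] x ∈ A ↔ x ∈ A := by
  induction n with
  | zero => simp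
  | succ n ih =>
    rw [Function.iterate_succ', Function.comp_apply]
    have h1 : S (S^[n] x) ∈ A ↔ S^[n] x ∈ A := by
      constructor
      · intro h2
        have : S^[n] x ∈ S ⁻¹' A := h2
        rwa [h] at this
      · intro h2
        have : S^[n] x ∈ S ⁻¹' A := by rw [h]; exact h2
        exact this
    rw [h1, ih]

theorem mem_iter_dvd {X : Type} {S : X → X} {A : Set X} {W : ℕ} (h : S^[W] ⁻¹' A = A) {n : ℕ}
    (hn : W ∣ n) (x : X) : S^[n] x ∈ A ↔ x ∈ A := by
  obtain ⟨r, rfl⟩ := hn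
  rw [Function.iterate_mul]
  exact mem_iter h r x

/-! ### the step -/

theorem prod_update {k : ℕ} (g : Fin k → ℝ) (j : Fin k) (a : ℝ) :
    ∏ i, (if i = j then a * g i else g i) = a * ∏ i, g i := by
  rw [← Finset.mul_prod_erase Finset.univ _ (Finset.mem_univ j),
    ← Finset.mul_prod_erase Finset.univ g (Finset.mem_univ j), if_pos rfl, mul_assoc]
  congr 2
  refine Finset.prod_congr rfl fun i hi => ?_
  rw [if_neg (Finset.ne_of_mem_erase hi)]

theorem step (c : CxE) (hk : 2 ≤ c.k) (hp3 : T_UP3) {W : ℕ} (hW : 0 < W) (hWe : Even W)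
    {A : Set c.X} (hA : MeasurableSet[Inv c.T W] A) (l : Fin c.k) (g : Fin c.k → c.X → ℝ)
    (hg : ∀ i, Measurable (g i)) (hb : ∀ i x, |g i x| ≤ 1) (hl : g l = fz c l) (ε : ℝ)
    (hε : 0 < ε) : ∃ m₀, ∀ m, m₀ ≤ m →
      |avgP W m fun p => c.σ p * ∫ x in A, ∏ i, g i (c.T^[(p - 1) * c.β i] x) ∂c.μ| ≤ ε := by
  have hA' := MeasurableSpace.measurableSet_invariants.mp hA
  obtain ⟨j, hj⟩ : ∃ j : Fin c.k, j ≠ l := by
    by_cases h0 : l.val = 0
    · refine ⟨⟨1, by omega⟩, fun h => ?_⟩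
      rw [← h] at h0
      simp at h0
    · refine ⟨⟨0, by omega⟩, fun h => ?_⟩
      rw [← h] at h0
      simp at h0
  obtain ⟨m₀, hm₀⟩ := hp3 c.X c.μ c.T c.k W c.β l (fz c l) ε c.erg c.inj hW hWe (fz_meas c l)
    (fz_abs c l) (fz_condExp c l) hε
  refine ⟨m₀, fun m hm => ?_⟩
  have key := hm₀ m hm c.σ c.σv
    (fun i => if i = j then (fun x => A.indicator (fun _ => (1 : ℝ)) x * g i x) else g i) ?_ ?_ ?_
  · have e : (avgP W m fun p => c.σ p * ∫ x in A, ∏ i, g i (c.T^[(p - 1) * c.β i] x) ∂c.μ) =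
        avgP W m fun p => c.σ p * ∫ x, ∏ i, (if i = j then
          (fun x => A.indicator (fun _ => (1 : ℝ)) x * g i x) else g i)
            (c.T^[(p - 1) * c.β i] x) ∂c.μ := by
      refine avgP_congr fun p hp => ?_
      rw [← integral_indicator hA'.1]
      congr 2
      funext x
      have e1 : ∏ i, (if i = j then
          (fun x => A.indicator (fun _ => (1 : ℝ)) x * g i x) else g i)
            (c.T^[(p - 1) * c.β i] x) =
          ∏ i, (if i = j then A.indicator (fun _ => (1 : ℝ)) (c.T^[(p - 1) * c.β j] x) *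
            g i (c.T^[(p - 1) * c.β i] x) else g i (c.T^[(p - 1) * c.β i] x)) := by
        refine Finset.prod_congr rfl fun i _ => ?_
        by_cases hi : i = j
        · subst hi
          rw [if_pos rfl, if_pos rfl]
        · rw [if_neg hi, if_neg hi]
      rw [e1, prod_update (fun i => g i (c.T^[(p - 1) * c.β i] x)) j]
      have hm1 : c.T^[(p - 1) * c.β j] x ∈ A ↔ x ∈ A :=
        mem_iter_dvd hA'.2 (Dvd.dvd.mul_right (dvd_of_mem hp) _) x
      by_cases hx : x ∈ A
      · rw [Set.indicator_of_mem hx, Set.indicator_of_mem (hm1.mpr hx), one_mul]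
      · rw [Set.indicator_of_notMem hx, Set.indicator_of_notMem (fun h => hx (hm1.mp h)), zero_mul]
    rw [e]
    exact key
  · intro i
    by_cases hi : i = j
    · rw [if_pos hi]
      exact (measurable_const.indicator hA'.1).mul (hg i)
    · rw [if_neg hi]
      exact hg i
  · intro i x
    by_cases hi : i = j
    · rw [if_pos hi]
      by_cases hx : x ∈ A
      · simp only [Set.indicator_of_mem hx, one_mul]
        exact hb i x
      · simp only [Set.indicator_of_notMem hx, zero_mul, abs_zero]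
        exact zero_le_one
    · rw [if_neg hi]
      exact hb i x
  · rw [if_neg (Ne.symm hj)]
    exact hl

/-! ### hybrids -/

/-- the first `s` functions are replaced -/
noncomputable def hyb (c : CxE) (s : ℕ) (i : Fin c.k) : c.X → ℝ :=
  if i.val < s then c.Db i else c.Dt i

theorem hyb_meas (c : CxE) (s : ℕ) (i : Fin c.k) : Measurable (hyb c s i) := by
  unfold hyb
  by_cases h : i.val < s
  · rw [if_pos h]; exact Db_meas c i
  · rw [if_neg h]; exact Dt_meas c i

theorem hyb_abs (c : CxE) (s : ℕ) (i : Fin c.k) (x : c.X) : |hyb c s i x| ≤ 1 := by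
  unfold hyb
  by_cases h : i.val < s
  · rw [if_pos h]; exact Db_abs c i x
  · rw [if_neg h]; exact Dt_abs c i x

/-- the average for the hybrid -/
noncomputable def II (c : CxE) (W : ℕ) (A : Set c.X) (s m : ℕ) : ℝ :=
  avgP W m fun p => c.σ p * ∫ x in A, ∏ i, hyb c s i (c.T^[(p - 1) * c.β i] x) ∂c.μ

theorem prod_meas (c : CxE) (g : Fin c.k → c.X → ℝ) (hg : ∀ i, Measurable (g i)) (p : ℕ) :
    Measurable fun x => ∏ i, g i (c.T^[(p - 1) * c.β i] x) :=
  Finset.measurable_prod _ fun i _ => (hg i).comp (c.T.measurable.iterate _)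

theorem prod_abs (c : CxE) (g : Fin c.k → c.X → ℝ) (hb : ∀ i x, |g i x| ≤ 1) (p : ℕ) (x : c.X) :
    |∏ i, g i (c.T^[(p - 1) * c.β i] x)| ≤ 1 := by
  rw [Finset.abs_prod]
  exact Finset.prod_le_one (fun i _ => abs_nonneg _) fun i _ => hb i _

theorem int_abs (c : CxE) (A : Set c.X) (g : Fin c.k → c.X → ℝ)
    (hb : ∀ i x, |g i x| ≤ 1) (p : ℕ) :
    |∫ x in A, ∏ i, g i (c.T^[(p - 1) * c.β i] x) ∂c.μ| ≤ 1 := by
  have h := norm_setIntegral_le_of_norm_le_const (μ := c.μ) (s := A) (C := 1)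
    (f := fun x => ∏ i, g i (c.T^[(p - 1) * c.β i] x)) (measure_lt_top _ _)
    (fun x _ => by rw [Real.norm_eq_abs]; exact prod_abs c g hb p x)
  rw [Real.norm_eq_abs, one_mul] at h
  exact h.trans measureReal_le_one

theorem sg_abs (c : CxE) (p : ℕ) : |c.σ p| ≤ 1 := by
  rcases c.σv p with h | h | h <;> rw [h] <;> simp

theorem II_abs (c : CxE) (W : ℕ) (A : Set c.X) (s : ℕ) : ∃ C, ∀ m, |II c W A s m| ≤ C :=
  ⟨1, fun _ => abs_avgP_le zero_le_one fun p => by
    rw [abs_mul]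
    exact mul_le_one₀ (sg_abs c p) (abs_nonneg _) (int_abs c A (hyb c s) (hyb_abs c s) p)⟩

theorem II_step (c : CxE) (hk : 2 ≤ c.k) (hp3 : T_UP3) {W : ℕ} (hW : 0 < W) (hWe : Even W)
    {A : Set c.X} (hA : MeasurableSet[Inv c.T W] A) (s : ℕ) (hs : s < c.k) :
    Tendsto (fun m => II c W A s m - II c W A (s + 1) m) atTop (𝓝 0) := by
  set l : Fin c.k := ⟨s, hs⟩ with hldef
  have hgm : ∀ i, Measurable (if i = l then fz c i else hyb c s i) := by
    intro i
    by_cases hi : i = l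
    · rw [if_pos hi]; exact fz_meas c i
    · rw [if_neg hi]; exact hyb_meas c s i
  have hgb : ∀ i x, |(if i = l then fz c i else hyb c s i) x| ≤ 1 := by
    intro i x
    by_cases hi : i = l
    · rw [if_pos hi]; exact fz_abs c i x
    · rw [if_neg hi]; exact hyb_abs c s i x
  have heq : ∀ m, II c W A s m - II c W A (s + 1) m =
      2 * avgP W m fun p => c.σ p * ∫ x in A, ∏ i, (if i = l then fz c i else hyb c s i)
        (c.T^[(p - 1) * c.β i] x) ∂c.μ := by
    intro m
    unfold II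
    rw [avgP_sub, ← avgP_mul]
    refine avgP_congr fun p _ => ?_
    rw [← mul_sub, mul_left_comm]
    congr 1
    rw [← integral_sub, ← integral_const_mul]
    · congr 1
      funext x
      rw [← Finset.mul_prod_erase Finset.univ _ (Finset.mem_univ l),
        ← Finset.mul_prod_erase Finset.univ
          (fun i => hyb c (s + 1) i (c.T^[(p - 1) * c.β i] x)) (Finset.mem_univ l),
        ← Finset.mul_prod_erase Finset.univ
          (fun i => (if i = l then fz c i else hyb c s i) (c.T^[(p - 1) * c.β i] x))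
          (Finset.mem_univ l)]
      have e1 : ∏ i ∈ Finset.univ.erase l, hyb c (s + 1) i (c.T^[(p - 1) * c.β i] x) =
          ∏ i ∈ Finset.univ.erase l, hyb c s i (c.T^[(p - 1) * c.β i] x) := by
        refine Finset.prod_congr rfl fun i hi => ?_
        have hne : i.val ≠ s := fun h => Finset.ne_of_mem_erase hi (Fin.ext h)
        have e2 : hyb c (s + 1) i = hyb c s i := by
          unfold hyb
          by_cases h : i.val < s
          · rw [if_pos h, if_pos (by omega)]
          · rw [if_neg h, if_neg (by omega)]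
        rw [e2]
      have e3 : ∏ i ∈ Finset.univ.erase l, (if i = l then fz c i else hyb c s i)
          (c.T^[(p - 1) * c.β i] x) =
          ∏ i ∈ Finset.univ.erase l, hyb c s i (c.T^[(p - 1) * c.β i] x) := by
        refine Finset.prod_congr rfl fun i hi => ?_
        rw [if_neg (Finset.ne_of_mem_erase hi)]
      rw [e1, e3, if_pos rfl]
      have e4 : hyb c s l = c.Dt l := by
        unfold hyb
        rw [if_neg (by simp [hldef])]
      have e5 : hyb c (s + 1) l = c.Db l := by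
        unfold hyb
        rw [if_pos (by simp [hldef])]
      rw [e4, e5]
      unfold fz
      ring
    · exact (integrable_of_bdd (prod_meas c _ (hyb_meas c s) p)
        (prod_abs c _ (hyb_abs c s) p)).integrableOn
    · exact (integrable_of_bdd (prod_meas c _ (hyb_meas c (s + 1)) p)
        (prod_abs c _ (hyb_abs c (s + 1)) p)).integrableOn
  rw [Metric.tendsto_atTop]
  intro ε hε
  obtain ⟨m₀, hm₀⟩ := step c hk hp3 hW hWe hA l
    (fun i => if i = l then fz c i else hyb c s i) hgm hgb (by rw [if_pos rfl]) (ε / 4)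
    (by linarith)
  refine ⟨m₀, fun m hm => ?_⟩
  rw [Real.dist_eq, sub_zero, heq m, abs_mul, abs_two]
  have := hm₀ m hm
  linarith

theorem II_ul (c : CxE) (hk : 2 ≤ c.k) (hul : Pool.Agent.H67.AG.T_UL) (hp3 : T_UP3) {W : ℕ} (hW : 0 < W)
    (hWe : Even W) {A : Set c.X} (hA : MeasurableSet[Inv c.T W] A) {U : Ultrafilter ℕ}
    (hU : (U : Filter ℕ) ≤ atTop) (s : ℕ) (hs : s ≤ c.k) :
    ul U (II c W A 0) = ul U (II c W A s) := by
  induction s with
  | zero => rfl
  | succ s ih =>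
    rw [ih (by omega)]
    exact ul_eq_of_sub hul hU (II_abs c W A s) (II_abs c W A (s + 1))
      (II_step c hk hp3 hW hWe hA s (by omega))

/-! ### the relation -/

theorem prod_sign (c : CxE) (p : ℕ) (x : c.X) :
    ∏ i, c.Dt i (c.T^[(p - 1) * c.β i] x) = 1 ∨ ∏ i, c.Dt i (c.T^[(p - 1) * c.β i] x) = -1 := by
  refine Finset.prod_induction _ (fun r : ℝ => r = 1 ∨ r = -1) ?_ (Or.inl rfl)
    fun i _ => Dt_sign c i _
  rintro a b (ha | ha) (hb | hb) <;> rw [ha, hb] <;> simp

theorem rel_int (c : CxE) {A : Set c.X} (p : ℕ) :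
    |c.σ p| * c.μ.real A - 2 * (|c.σ p| * c.μ.real (A ∩ bd c.T c.β (c.σ p) c.Dt p)) =
      c.σ p * ∫ x in A, ∏ i, c.Dt i (c.T^[(p - 1) * c.β i] x) ∂c.μ := by
  rcases c.σv p with h0 | h0
  · rw [h0]
    simp
  have hab : |c.σ p| = 1 := by
    rcases h0 with h | h <;> rw [h] <;> simp
  rw [hab, one_mul, one_mul]
  have hm := prod_meas c c.Dt (Dt_meas c) p
  have hB : MeasurableSet (bd c.T c.β (c.σ p) c.Dt p) := by
    have : bd c.T c.β (c.σ p) c.Dt p =
        (fun x => ∏ i, c.Dt i (c.T^[(p - 1) * c.β i] x)) ⁻¹' {c.σ p}ᶜ := by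
      ext x
      simp [bd]
    rw [this]
    exact hm (measurableSet_singleton _).compl
  rw [← integral_const_mul]
  have e : ∀ x, c.σ p * ∏ i, c.Dt i (c.T^[(p - 1) * c.β i] x) =
      1 - 2 * (bd c.T c.β (c.σ p) c.Dt p).indicator (fun _ => (1 : ℝ)) x := by
    intro x
    by_cases hx : x ∈ bd c.T c.β (c.σ p) c.Dt p
    · rw [Set.indicator_of_mem hx]
      have hx' : ∏ i, c.Dt i (c.T^[(p - 1) * c.β i] x) ≠ c.σ p := hx
      rcases prod_sign c p x with h | h <;> rcases h0 with h' | h'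
      · exact absurd (h.trans h'.symm) hx'
      · rw [h, h']; norm_num
      · rw [h, h']; norm_num
      · exact absurd (h.trans h'.symm) hx'
    · rw [Set.indicator_of_notMem hx]
      have hx' : ∏ i, c.Dt i (c.T^[(p - 1) * c.β i] x) = c.σ p := by
        by_contra h
        exact hx h
      rw [hx']
      rcases h0 with h' | h' <;> rw [h'] <;> norm_num
  have e1 : (∫ x in A, c.σ p * ∏ i, c.Dt i (c.T^[(p - 1) * c.β i] x) ∂c.μ) =
      ∫ x in A, (1 - 2 * (bd c.T c.β (c.σ p) c.Dt p).indicator (fun _ => (1 : ℝ)) x) ∂c.μ := by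
    congr 1
    funext x
    exact e x
  rw [e1, integral_sub (integrable_const _)
    (((integrable_const (1 : ℝ)).indicator hB).const_mul 2), integral_const_mul,
    integral_const, integral_indicator_const _ hB, measureReal_restrict_apply hB,
    measureReal_restrict_apply MeasurableSet.univ, Set.univ_inter, Set.inter_comm A]
  simp

/-- UA0 -/
theorem pf_UA0 (hul : Pool.Agent.H67.AG.T_UL) (hpn : Pool.Agent.H67.AG.T_PN) (hp3 : T_UP3) :
    T_UA0 := by
  intro c hk w A hA
  have hW : 0 < c.W w := Nat.mul_pos c.Qpos (Nat.factorial_pos w)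
  have hWe : Even (c.W w) := c.Qev.mul_right _
  have hU := c.hU w
  have hbd : ∃ C, ∀ m, |avgP (c.W w) m fun p =>
      |c.σ p| * c.μ.real (A ∩ bd c.T c.β (c.σ p) c.Dt p)| ≤ C :=
    ⟨1, fun _ => abs_avgP_le zero_le_one fun p => by
      rw [abs_of_nonneg (mul_nonneg (abs_nonneg _) measureReal_nonneg)]
      exact mul_le_one₀ (sg_abs c p) measureReal_nonneg measureReal_le_one⟩
  have hbd0 : ∃ C, ∀ m, |avgP (c.W w) m (fun p => |c.σ p|)| ≤ C :=
    ⟨1, fun _ => abs_avgP_le zero_le_one fun p => by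
      rw [abs_abs]
      exact sg_abs c p⟩
  have h0 : Tendsto (fun m => avgP (c.W w) m fun p => |c.σ p|) (c.U w : Filter ℕ)
      (𝓝 (dn (c.U w) (c.W w) c.σ)) := (hul (c.U w)).1 _ hbd0
  have h1 : Tendsto (fun m => avgP (c.W w) m fun p =>
      |c.σ p| * c.μ.real (A ∩ bd c.T c.β (c.σ p) c.Dt p))
      (c.U w : Filter ℕ) (𝓝 (Lm (c.U w) (c.W w) c.μ c.T c.β c.σ c.Dt A)) := (hul (c.U w)).1 _ hbd
  have h2 : Tendsto (II c (c.W w) A 0) (c.U w : Filter ℕ) (𝓝 (ul (c.U w) (II c (c.W w) A 0))) :=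
    (hul (c.U w)).1 _ (II_abs c (c.W w) A 0)
  have h3 : Tendsto (fun m => (avgP (c.W w) m fun p => |c.σ p|) * c.μ.real A -
      2 * avgP (c.W w) m fun p => |c.σ p| * c.μ.real (A ∩ bd c.T c.β (c.σ p) c.Dt p))
      (c.U w : Filter ℕ) (𝓝 (dn (c.U w) (c.W w) c.σ * c.μ.real A -
        2 * Lm (c.U w) (c.W w) c.μ c.T c.β c.σ c.Dt A)) :=
    (h0.mul_const _).sub (h1.const_mul 2)
  have h5 : (fun m => (avgP (c.W w) m fun p => |c.σ p|) * c.μ.real A -
      2 * avgP (c.W w) m fun p => |c.σ p| * c.μ.real (A ∩ bd c.T c.β (c.σ p) c.Dt p)) =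
      fun m => II c (c.W w) A 0 m := by
    funext m
    unfold II
    rw [← avgP_mul, mul_comm (avgP (c.W w) m fun p => |c.σ p|) (c.μ.real A), ← avgP_mul, avgP_sub]
    refine avgP_congr fun p _ => ?_
    have e0 : hyb c 0 = c.Dt := by
      funext i
      unfold hyb
      rw [if_neg (by omega)]
    rw [e0, ← rel_int c p]
    ring
  rw [h5] at h3
  have h6 := tendsto_nhds_unique h3 h2
  rw [h6, II_ul c hk hul hp3 hW hWe hA hU c.k le_rfl]
  have e1 : II c (c.W w) A c.k = fun m => avgP (c.W w) m fun p =>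
      c.σ p * ∫ x in A, ∏ i, c.Db i (c.T^[(p - 1) * c.β i] x) ∂c.μ := by
    funext m
    unfold II
    have e0 : hyb c c.k = c.Db := by
      funext i
      unfold hyb
      rw [if_pos i.isLt]
    rw [e0]
  rw [e1]

end Pool.Agent.H39.UG

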